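import Pool.Agent.H46.EXC.Stmts

/-!
# EXC, row GRA: edges of a bipartite graph and pairs with common neighbours
-/

set_option autoImplicit false

namespace Pool.EXC

open Finset

lemma gra44_aux {ε α β : Type} [DecidableEq α] [DecidableEq β] (E : Finset ε) (f : ε → α)
    (g : ε → β) (hinj : ∀ e ∈ E, ∀ e' ∈ E, f e = f e' → g e = g e' → e = e')
    (P : Finset (α × α)) (hP : ∀ e ∈ E, ∀ e' ∈ E, g e = g e' → (f e, f e') ∈ P) :
    ∑ e ∈ E, ((E.filter (fun e' => g e' = g e)).card : ℝ) /
      ((E.filter (fun e' => f e' = f e)).card : ℝ) ≤ P.card := by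
  classical
  -- the degree of `g e` is at most the number of pairs in `P` with first member `f e`
  have h1 : ∀ e ∈ E, (E.filter (fun e' => g e' = g e)).card ≤
      (P.filter (fun x => x.1 = f e)).card := by
    intro e he
    apply Finset.card_le_card_of_injOn (fun e' => (f e, f e'))
    · intro e' he'
      have h := Finset.mem_filter.mp he'
      exact Finset.mem_coe.mpr (Finset.mem_filter.mpr ⟨hP e he e' h.1 h.2.symm, rfl⟩)
    · intro a ha b hb hab
      have ha' := Finset.mem_filter.mp ha
      have hb' := Finset.mem_filter.mp hb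
      simp only [Prod.mk.injEq, true_and] at hab
      exact hinj a ha'.1 b hb'.1 hab (ha'.2.trans hb'.2.symm)
  have h2 : ∑ e ∈ E, ((E.filter (fun e' => g e' = g e)).card : ℝ) /
      ((E.filter (fun e' => f e' = f e)).card : ℝ) ≤
      ∑ e ∈ E, ((P.filter (fun x => x.1 = f e)).card : ℝ) /
        ((E.filter (fun e' => f e' = f e)).card : ℝ) := by
    refine Finset.sum_le_sum fun e he => ?_
    apply div_le_div_of_nonneg_right _ (Nat.cast_nonneg _)
    exact_mod_cast h1 e he
  refine h2.trans ?_
  have h3 : ∑ e ∈ E, ((P.filter (fun x => x.1 = f e)).card : ℝ) /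
        ((E.filter (fun e' => f e' = f e)).card : ℝ) =
      ∑ a ∈ E.image f, ((P.filter (fun x => x.1 = a)).card : ℝ) := by
    rw [← Finset.sum_fiberwise_of_maps_to (t := E.image f) (g := f)
      (fun e he => Finset.mem_image_of_mem f he)]
    refine Finset.sum_congr rfl fun a ha => ?_
    obtain ⟨e₀, he₀, rfl⟩ := Finset.mem_image.mp ha
    have hc : 0 < (E.filter (fun e' => f e' = f e₀)).card :=
      Finset.card_pos.mpr ⟨e₀, Finset.mem_filter.mpr ⟨he₀, rfl⟩⟩
    have hc' : ((E.filter (fun e' => f e' = f e₀)).card : ℝ) ≠ 0 := by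
      exact_mod_cast hc.ne'
    have h4 : ∀ e ∈ E.filter (fun e' => f e' = f e₀),
        ((P.filter (fun x => x.1 = f e)).card : ℝ) /
          ((E.filter (fun e' => f e' = f e)).card : ℝ) =
        ((P.filter (fun x => x.1 = f e₀)).card : ℝ) /
          ((E.filter (fun e' => f e' = f e₀)).card : ℝ) := by
      intro e he
      rw [(Finset.mem_filter.mp he).2]
    rw [Finset.sum_congr rfl h4, Finset.sum_const, nsmul_eq_mul]
    field_simp
  rw [h3]
  have h5 : ∑ a ∈ E.image f, (P.filter (fun x => x.1 = a)).card ≤ P.card := by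
    rw [← Finset.card_biUnion]
    · apply Finset.card_le_card
      intro x hx
      obtain ⟨a, _, ha⟩ := Finset.mem_biUnion.mp hx
      exact (Finset.mem_filter.mp ha).1
    · intro a _ b _ hab
      rw [Function.onFun, Finset.disjoint_left]
      intro x hx hx'
      exact hab ((Finset.mem_filter.mp hx).2.symm.trans (Finset.mem_filter.mp hx').2)
  exact_mod_cast h5

theorem gra_thm : S_GRA := by
  classical
  intro α β _ _ E P Q hP hQ
  have h1 := gra44_aux E Prod.fst Prod.snd (fun e _ e' _ h h' => Prod.ext h h') P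
    (fun e he e' he' h => hP e.1 e'.1 e.2 he (by rw [h]; exact he'))
  have h2 := gra44_aux E Prod.snd Prod.fst (fun e _ e' _ h h' => Prod.ext h' h) Q
    (fun e he e' he' h => hQ e.1 e.2 e'.2 he (by rw [h]; exact he'))
  have hpos1 : ∀ e ∈ E, (0 : ℝ) < ((E.filter (fun e' => e'.1 = e.1)).card : ℝ) := by
    intro e he
    have h : 0 < (E.filter (fun e' => e'.1 = e.1)).card :=
      Finset.card_pos.mpr ⟨e, Finset.mem_filter.mpr ⟨he, rfl⟩⟩
    exact_mod_cast h
  have hpos2 : ∀ e ∈ E, (0 : ℝ) < ((E.filter (fun e' => e'.2 = e.2)).card : ℝ) := by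
    intro e he
    have h : 0 < (E.filter (fun e' => e'.2 = e.2)).card :=
      Finset.card_pos.mpr ⟨e, Finset.mem_filter.mpr ⟨he, rfl⟩⟩
    exact_mod_cast h
  have h3 := Finset.sum_sq_le_sum_mul_sum_of_sq_le_mul E (r := fun _ => (1 : ℝ))
    (f := fun e => ((E.filter (fun e' => e'.2 = e.2)).card : ℝ) /
      ((E.filter (fun e' => e'.1 = e.1)).card : ℝ))
    (g := fun e => ((E.filter (fun e' => e'.1 = e.1)).card : ℝ) /
      ((E.filter (fun e' => e'.2 = e.2)).card : ℝ))
    (fun e _ => by positivity) (fun e _ => by positivity)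
    (fun e he => by
      have a1 := (hpos1 e he).ne'
      have a2 := (hpos2 e he).ne'
      refine le_of_eq ?_
      field_simp)
  have h4 : (∑ _e ∈ E, (1 : ℝ)) = E.card := by simp
  rw [h4] at h3
  have h5 : ((E.card : ℝ)) ^ 2 ≤ P.card * Q.card := by
    refine h3.trans (mul_le_mul h1 h2 ?_ (Nat.cast_nonneg _))
    exact Finset.sum_nonneg fun e _ => by positivity
  exact_mod_cast h5

end Pool.EXC
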